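import Pool.Agent.Lead.TB.Defs

/-!
# Project TB, module G: the function `g`
-/

set_option autoImplicit false

namespace Pool.Agent.Lead.TB

open Finset

/-- The arithmetic-geometric mean bound for factorials. -/
theorem h28_fact_le (j : ℕ) : (j.factorial : ℝ) ≤ (((j : ℝ) + 1) / 2) ^ j := by
  induction j with
  | zero => simp
  | succ j ih =>
    have h1 : (0 : ℝ) < (j : ℝ) + 1 := by positivity
    have h2 : (1 : ℝ) + ((j + 1 : ℕ) : ℝ) * (1 / ((j : ℝ) + 1)) ≤
        (1 + 1 / ((j : ℝ) + 1)) ^ (j + 1) := by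
      apply one_add_mul_le_pow
      have : (0 : ℝ) ≤ 1 / ((j : ℝ) + 1) := by positivity
      linarith
    have h3 : (1 : ℝ) + ((j + 1 : ℕ) : ℝ) * (1 / ((j : ℝ) + 1)) = 2 := by
      push_cast
      field_simp
      norm_num
    rw [h3] at h2
    have h4 : (((j + 1 : ℕ) : ℝ) + 1) / 2 = (((j : ℝ) + 1) / 2) * (1 + 1 / ((j : ℝ) + 1)) := by
      push_cast
      field_simp
    rw [h4, mul_pow, Nat.factorial_succ]
    push_cast
    have h5 : (0 : ℝ) ≤ (((j : ℝ) + 1) / 2) ^ (j + 1) := by positivity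
    calc ((j : ℝ) + 1) * (j.factorial : ℝ) ≤ ((j : ℝ) + 1) * (((j : ℝ) + 1) / 2) ^ j :=
          mul_le_mul_of_nonneg_left ih h1.le
      _ = (((j : ℝ) + 1) / 2) ^ (j + 1) * 2 := by rw [pow_succ]; ring
      _ ≤ (((j : ℝ) + 1) / 2) ^ (j + 1) * (1 + 1 / ((j : ℝ) + 1)) ^ (j + 1) :=
          mul_le_mul_of_nonneg_left h2 h5

theorem h28_g_pos (d : ℕ) : 0 < g d := by
  unfold g
  exact Real.rpow_pos_of_pos (by exact_mod_cast Nat.factorial_pos d) _

theorem h28_log_g (d : ℕ) : Real.log (g d) = Real.log (d.factorial : ℝ) / d := by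
  unfold g
  rw [Real.log_rpow (by exact_mod_cast Nat.factorial_pos d)]
  ring

theorem h28_step {j : ℕ} (hj : 1 ≤ j) :
    Real.log (g j) + Real.log 2 / ((j : ℝ) + 1) ≤ Real.log (g (j + 1)) := by
  have hj0 : (0 : ℝ) < j := by exact_mod_cast hj
  have hf : (0 : ℝ) < (j.factorial : ℝ) := by exact_mod_cast Nat.factorial_pos j
  have h1 : Real.log (j.factorial : ℝ) ≤ j * (Real.log ((j : ℝ) + 1) - Real.log 2) := by
    have h2 := Real.log_le_log hf (h28_fact_le j)
    rw [Real.log_pow, Real.log_div (by positivity) (by norm_num)] at h2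
    exact h2
  rw [h28_log_g, h28_log_g, Nat.factorial_succ]
  push_cast
  rw [Real.log_mul (by positivity) hf.ne']
  have h3 : Real.log (j.factorial : ℝ) / j ≤ Real.log ((j : ℝ) + 1) - Real.log 2 := by
    rw [div_le_iff₀ hj0]
    linarith
  have h4 : (Real.log ((j : ℝ) + 1) + Real.log (j.factorial : ℝ)) / ((j : ℝ) + 1) -
      (Real.log (j.factorial : ℝ) / j + Real.log 2 / ((j : ℝ) + 1)) =
      (Real.log ((j : ℝ) + 1) - Real.log 2 - Real.log (j.factorial : ℝ) / j) / ((j : ℝ) + 1) := by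
    field_simp
    ring
  have h5 : 0 ≤ (Real.log ((j : ℝ) + 1) - Real.log 2 - Real.log (j.factorial : ℝ) / j) /
      ((j : ℝ) + 1) := by
    apply div_nonneg
    · linarith
    · positivity
  linarith

theorem h28_log_ratio {d j : ℕ} (hd : 1 ≤ d) (hj : d ≤ j) :
    Real.log (g d) + Real.log 2 * ((j : ℝ) - d) / j ≤ Real.log (g j) := by
  induction j, hj using Nat.le_induction with
  | base => simp
  | succ j hj ih =>
    have hj1 : 1 ≤ j := le_trans hd hj
    have hj0 : (0 : ℝ) < j := by exact_mod_cast hj1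
    have h1 := h28_step hj1
    have hdj : (d : ℝ) ≤ j := by exact_mod_cast hj
    have h2 : Real.log 2 * (((j + 1 : ℕ) : ℝ) - d) / ((j + 1 : ℕ) : ℝ) ≤
        Real.log 2 * ((j : ℝ) - d) / j + Real.log 2 / ((j : ℝ) + 1) := by
      push_cast
      have h3 : Real.log 2 * ((j : ℝ) + 1 - d) / ((j : ℝ) + 1) =
          Real.log 2 * ((j : ℝ) - d) / ((j : ℝ) + 1) + Real.log 2 / ((j : ℝ) + 1) := by
        field_simp
        ring
      rw [h3]
      have h4 : Real.log 2 * ((j : ℝ) - d) / ((j : ℝ) + 1) ≤ Real.log 2 * ((j : ℝ) - d) / j := by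
        apply div_le_div_of_nonneg_left _ hj0 (by linarith)
        exact mul_nonneg (Real.log_nonneg (by norm_num)) (by linarith)
      linarith
    linarith

theorem g_ratio {d j : ℕ} (hd : 1 ≤ d) (hj : d ≤ j) :
    g d ≤ g j * Real.exp (-(Real.log 2 * ((j : ℝ) - d) / j)) := by
  have h1 := h28_log_ratio hd hj
  rw [← Real.exp_log (h28_g_pos d), ← Real.exp_log (h28_g_pos j), ← Real.exp_add]
  apply Real.exp_le_exp.2
  linarith

/-- Stirling's upper bound. -/
theorem h28_log_fact {j : ℕ} (hj : 1 ≤ j) :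
    Real.log (j.factorial : ℝ) ≤ 1 + Real.log j / 2 + j * Real.log j - j := by
  have hj0 : (0 : ℝ) < j := by exact_mod_cast hj
  obtain ⟨i, rfl⟩ : ∃ i, j = i + 1 := ⟨j - 1, by omega⟩
  have h1 : Stirling.stirlingSeq (i + 1) ≤ Stirling.stirlingSeq 1 :=
    Stirling.stirlingSeq'_antitone (Nat.zero_le i)
  rw [Stirling.stirlingSeq_one] at h1
  have h2 : Stirling.stirlingSeq (i + 1) = ((i + 1).factorial : ℝ) /
      (Real.sqrt (2 * ((i + 1 : ℕ) : ℝ)) * (((i + 1 : ℕ) : ℝ) / Real.exp 1) ^ (i + 1)) := rfl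
  rw [h2] at h1
  have hf : (0 : ℝ) < ((i + 1).factorial : ℝ) := by exact_mod_cast Nat.factorial_pos _
  have hs : (0 : ℝ) < Real.sqrt (2 * ((i + 1 : ℕ) : ℝ)) := Real.sqrt_pos.2 (by positivity)
  have hp : (0 : ℝ) < (((i + 1 : ℕ) : ℝ) / Real.exp 1) ^ (i + 1) := by positivity
  have h3 := Real.log_le_log (by positivity) h1
  rw [Real.log_div hf.ne' (by positivity), Real.log_mul hs.ne' hp.ne', Real.log_pow,
    Real.log_div hj0.ne' (Real.exp_pos 1).ne', Real.log_exp,
    Real.log_div (Real.exp_pos 1).ne' (by positivity), Real.log_exp, Real.log_sqrt (by positivity),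
    Real.log_sqrt (by positivity), Real.log_mul (by norm_num) hj0.ne'] at h3
  linarith

theorem h28_sum_log (m : ℕ) :
    ∑ j ∈ Icc 1 m, Real.log (j : ℝ) = Real.log (m.factorial : ℝ) := by
  induction m with
  | zero => simp
  | succ m ih =>
    rw [Finset.sum_Icc_succ_top (by omega), ih, Nat.factorial_succ]
    push_cast
    rw [Real.log_mul (by positivity) (by positivity)]
    ring

theorem g_prod {m : ℕ} (hm : 1 ≤ m) :
    ∏ j ∈ Icc 1 m, g j ≤ (m.factorial : ℝ) ^ 2 / (m : ℝ) ^ m * Real.exp (loss m) := by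
  have hm0 : (0 : ℝ) < m := by exact_mod_cast hm
  have hf : (0 : ℝ) < (m.factorial : ℝ) := by exact_mod_cast Nat.factorial_pos m
  have hlm : 0 ≤ Real.log m := Real.log_nonneg (by exact_mod_cast hm)
  have h1 : ∀ j ∈ Icc 1 m, Real.log (g j) ≤
      (1 + Real.log m / 2) * (j : ℝ)⁻¹ + Real.log j - 1 := by
    intro j hj
    rw [mem_Icc] at hj
    have hj0 : (0 : ℝ) < j := by exact_mod_cast hj.1
    have h2 := h28_log_fact hj.1
    have h3 : Real.log j ≤ Real.log m := Real.log_le_log hj0 (by exact_mod_cast hj.2)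
    rw [h28_log_g, div_le_iff₀ hj0]
    have h4 : ((1 + Real.log m / 2) * (j : ℝ)⁻¹ + Real.log j - 1) * j =
        (1 + Real.log m / 2) + j * Real.log j - j := by
      field_simp
    rw [h4]
    linarith
  have h2 : Real.log (∏ j ∈ Icc 1 m, g j) ≤ loss m + Real.log (m.factorial : ℝ) - m := by
    rw [Real.log_prod (fun j _ => (h28_g_pos j).ne')]
    refine le_trans (Finset.sum_le_sum h1) ?_
    rw [Finset.sum_sub_distrib, Finset.sum_add_distrib, ← Finset.mul_sum]
    have h3 : ∑ j ∈ Icc 1 m, (j : ℝ)⁻¹ ≤ 1 + Real.log m := by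
      have h4 := harmonic_le_one_add_log m
      rw [harmonic_eq_sum_Icc] at h4
      push_cast at h4
      exact h4
    have h5 : ∑ j ∈ Icc 1 m, Real.log (j : ℝ) = Real.log (m.factorial : ℝ) := h28_sum_log m
    have h6 : ∑ j ∈ Icc 1 m, (1 : ℝ) = m := by simp
    rw [h5, h6]
    have h7 : (1 + Real.log m / 2) * ∑ j ∈ Icc 1 m, (j : ℝ)⁻¹ ≤ loss m :=
      mul_le_mul_of_nonneg_left h3 (by linarith)
    linarith
  have h3 : (m : ℝ) * Real.log m - m ≤ Real.log (m.factorial : ℝ) := by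
    have h4 := Real.pow_div_factorial_le_exp (m : ℝ) hm0.le m
    have h5 := Real.log_le_log (by positivity) h4
    rw [Real.log_exp, Real.log_div (by positivity) hf.ne', Real.log_pow] at h5
    linarith
  have hP : 0 < ∏ j ∈ Icc 1 m, g j := Finset.prod_pos fun j _ => h28_g_pos j
  rw [← Real.exp_log hP]
  have h4 : (m.factorial : ℝ) ^ 2 / (m : ℝ) ^ m =
      Real.exp (2 * Real.log (m.factorial : ℝ) - m * Real.log m) := by
    rw [Real.exp_sub]
    congr 1
    · rw [← Real.exp_log (show (0 : ℝ) < (m.factorial : ℝ) ^ 2 by positivity), Real.log_pow]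
      norm_num
    · rw [← Real.exp_log (show (0 : ℝ) < (m : ℝ) ^ m by positivity), Real.log_pow]
  rw [h4, ← Real.exp_add]
  apply Real.exp_le_exp.2
  linarith

end Pool.Agent.Lead.TB
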